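import Pool.Agent.H27.L1.H68.GHK.UNW

/-!
Board zf (MP_52e316_nt), row UNI: from the zero density estimates at one level to the universal family.
-/

set_option autoImplicit false

namespace Pool.Agent.H31.ZF

open Classical in
/-- the weighted sum of the bad members of one level -/
lemma one_lev {S : Type} [Fintype S] (P w : S → ℝ) (bad : S → Prop) (m N : ℕ) (c C1 e1 Q : ℝ)
    (hm : 1 ≤ m) (hN : 1 ≤ N) (hc : 0 < c) (hC1 : 0 ≤ C1) (he1 : 0 < e1) (hQ : 1 ≤ Q)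
    (hP : ∀ i, 1 ≤ P i) (hw : ∀ i, 0 ≤ w i)
    (hZ : ∑ i with P i ≤ Q ∧ bad i, w i ≤ C1 * ((N : ℝ) * Q ^ m) ^ ((m : ℝ) - c)) :
    ∑ i ∈ Finset.univ.filter (fun i : S => P i ≤ Q),
      w i * (if bad i then ((N : ℝ) * P i) ^ c else 0) ≤
        C1 * ((N : ℝ) * Q) ^ e1 * ((N : ℝ) ^ m * Q ^ (m ^ 2)) := by
  have hN1 : (1 : ℝ) ≤ N := by exact_mod_cast hN
  have hN0 : (0 : ℝ) < N := by linarith
  have hQ0 : 0 < Q := by linarith
  have hNQ : 1 ≤ (N : ℝ) * Q := by nlinarith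
  have hQm : Q ≤ Q ^ m := le_self_pow₀ hQ (by omega)
  have hNQm : (N : ℝ) * Q ≤ N * Q ^ m := mul_le_mul_of_nonneg_left hQm hN0.le
  have hNQm0 : 0 < (N : ℝ) * Q ^ m := by positivity
  have h1 : ∑ i ∈ Finset.univ.filter (fun i : S => P i ≤ Q),
      w i * (if bad i then ((N : ℝ) * P i) ^ c else 0) ≤
      ∑ i with P i ≤ Q ∧ bad i, w i * ((N : ℝ) * Q) ^ c := by
    rw [Finset.sum_filter, Finset.sum_filter]
    refine Finset.sum_le_sum fun i _ => ?_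
    by_cases h2 : P i ≤ Q
    · by_cases h3 : bad i
      · rw [if_pos h2, if_pos h3, if_pos ⟨h2, h3⟩]
        refine mul_le_mul_of_nonneg_left ?_ (hw i)
        have := hP i
        exact Real.rpow_le_rpow (by positivity) (mul_le_mul_of_nonneg_left h2 hN0.le) hc.le
      · rw [if_pos h2, if_neg h3, if_neg (fun h => h3 h.2), mul_zero]
    · rw [if_neg h2, if_neg (fun h => h2 h.1)]
  have h2 : ((N : ℝ) * Q ^ m) ^ ((m : ℝ) - c) * ((N : ℝ) * Q) ^ c ≤ (N : ℝ) ^ m * Q ^ (m ^ 2) := by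
    rw [Real.rpow_sub hNQm0, Real.rpow_natCast, mul_pow, ← pow_mul, ← sq, div_mul_eq_mul_div,
      div_le_iff₀ (by positivity)]
    refine mul_le_mul_of_nonneg_left ?_ (by positivity)
    exact Real.rpow_le_rpow (by positivity) hNQm hc.le
  have h3 : 1 ≤ ((N : ℝ) * Q) ^ e1 := Real.one_le_rpow hNQ he1.le
  calc ∑ i ∈ Finset.univ.filter (fun i : S => P i ≤ Q),
      w i * (if bad i then ((N : ℝ) * P i) ^ c else 0) ≤
      ∑ i with P i ≤ Q ∧ bad i, w i * ((N : ℝ) * Q) ^ c := h1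
    _ = (∑ i with P i ≤ Q ∧ bad i, w i) * ((N : ℝ) * Q) ^ c := by rw [Finset.sum_mul]
    _ ≤ (C1 * ((N : ℝ) * Q ^ m) ^ ((m : ℝ) - c)) * ((N : ℝ) * Q) ^ c :=
        mul_le_mul_of_nonneg_right hZ (by positivity)
    _ = C1 * (((N : ℝ) * Q ^ m) ^ ((m : ℝ) - c) * ((N : ℝ) * Q) ^ c) := by ring
    _ ≤ C1 * ((N : ℝ) ^ m * Q ^ (m ^ 2)) := mul_le_mul_of_nonneg_left h2 hC1
    _ = C1 * 1 * ((N : ℝ) ^ m * Q ^ (m ^ 2)) := by ring
    _ ≤ C1 * ((N : ℝ) * Q) ^ e1 * ((N : ℝ) ^ m * Q ^ (m ^ 2)) := by gcongr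

open Classical in
/-- the members of small level and small size -/
lemma small_cnt (m : ℕ) (C1 Z X : ℝ) (hC1 : 0 ≤ C1) (hZ : 1 ≤ Z) (hZX : Z ≤ X) (S : ℕ → Type)
    [∀ N, Fintype (S N)] (P w : ∀ N : ℕ, S N → ℝ) (hF : ∀ N, 1 ≤ N → ∀ i, 1 ≤ P N i ∧ 1 ≤ w N i)
    (hT : ∀ N, 1 ≤ N → ∀ Q : ℝ, 1 ≤ Q →
      ∑ i with P N i ≤ Q, w N i ≤ C1 * ((N : ℝ) * Q) ^ (m ^ 2 + 1)) :
    ∑ N ∈ Finset.Icc 1 ⌊X⌋₊, ∑ i : S N, (if (N : ℝ) * P N i < Z then (1 : ℝ) else 0) ≤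
      C1 * Z ^ (2 * m ^ 2 + 3) := by
  have hZ0 : 0 < Z := by linarith
  have h1 : ∀ N ∈ Finset.Icc 1 ⌊X⌋₊, N ∉ Finset.Icc 1 ⌊Z⌋₊ →
      ∑ i : S N, (if (N : ℝ) * P N i < Z then (1 : ℝ) else 0) = 0 := by
    intro N hN hN'
    refine Finset.sum_eq_zero fun i _ => if_neg ?_
    intro h
    apply hN'
    have hN1 := (Finset.mem_Icc.1 hN).1
    refine Finset.mem_Icc.2 ⟨hN1, Nat.le_floor ?_⟩
    have h2 := (hF N hN1 i).1
    have h3 : (0 : ℝ) ≤ N := Nat.cast_nonneg N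
    nlinarith
  have h2 : Finset.Icc 1 ⌊Z⌋₊ ⊆ Finset.Icc 1 ⌊X⌋₊ :=
    Finset.Icc_subset_Icc_right (Nat.floor_mono hZX)
  rw [← Finset.sum_subset h2 h1]
  have h3 : ∀ N ∈ Finset.Icc 1 ⌊Z⌋₊,
      ∑ i : S N, (if (N : ℝ) * P N i < Z then (1 : ℝ) else 0) ≤ C1 * (Z * Z) ^ (m ^ 2 + 1) := by
    intro N hN
    obtain ⟨hN1, hN2⟩ := Finset.mem_Icc.1 hN
    have hN1' : (1 : ℝ) ≤ N := by exact_mod_cast hN1
    have hNZ : (N : ℝ) ≤ Z := (Nat.cast_le.2 hN2).trans (Nat.floor_le hZ0.le)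
    calc ∑ i : S N, (if (N : ℝ) * P N i < Z then (1 : ℝ) else 0) ≤
        ∑ i with P N i ≤ Z, w N i := by
          rw [Finset.sum_filter]
          refine Finset.sum_le_sum fun i _ => ?_
          obtain ⟨h4, h5⟩ := hF N hN1 i
          by_cases h6 : (N : ℝ) * P N i < Z
          · have h7 : P N i ≤ Z := by nlinarith
            rw [if_pos h6, if_pos h7]
            exact h5
          · rw [if_neg h6]
            split_ifs
            · linarith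
            · exact le_rfl
      _ ≤ C1 * ((N : ℝ) * Z) ^ (m ^ 2 + 1) := hT N hN1 Z hZ
      _ ≤ C1 * (Z * Z) ^ (m ^ 2 + 1) := by gcongr
  calc ∑ N ∈ Finset.Icc 1 ⌊Z⌋₊, ∑ i : S N, (if (N : ℝ) * P N i < Z then (1 : ℝ) else 0) ≤
      ∑ _N ∈ Finset.Icc 1 ⌊Z⌋₊, C1 * (Z * Z) ^ (m ^ 2 + 1) := Finset.sum_le_sum h3
    _ = (⌊Z⌋₊ : ℝ) * (C1 * (Z * Z) ^ (m ^ 2 + 1)) := by
        rw [Finset.sum_const, nsmul_eq_mul, Nat.card_Icc, Nat.add_sub_cancel]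
    _ ≤ Z * (C1 * (Z * Z) ^ (m ^ 2 + 1)) :=
        mul_le_mul_of_nonneg_right (Nat.floor_le hZ0.le) (by positivity)
    _ = C1 * Z ^ (2 * m ^ 2 + 3) := by ring

open Classical in
/-- the universal family: few bad members -/
theorem uni (m : ℕ) (hm : 1 ≤ m) (c : ℝ) (hc : 0 < c) : ∃ c' C : ℝ, 0 < c' ∧ 0 < C ∧
    ∀ (C1 : ℝ), 0 ≤ C1 → ∀ (S : ℕ → Type) [∀ N, Fintype (S N)] (P w : ∀ N : ℕ, S N → ℝ)
      (bad : ∀ N : ℕ, S N → Prop),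
    (∀ N, 1 ≤ N → ∀ i, 1 ≤ P N i ∧ 1 ≤ w N i ∧ w N i ≤ P N i ^ (m * (m - 1) / 2)) →
    (∀ N, 1 ≤ N → ∀ Q : ℝ, 1 ≤ Q →
      ∑ i with P N i ≤ Q ∧ bad N i, w N i ≤ C1 * ((N : ℝ) * Q ^ m) ^ ((m : ℝ) - c)) →
    (∀ N, 1 ≤ N → ∀ Q : ℝ, 1 ≤ Q →
      ∑ i with P N i ≤ Q, w N i ≤ C1 * ((N : ℝ) * Q) ^ (m ^ 2 + 1)) →
    ∀ X : ℝ, 1 ≤ X → ((∑ N ∈ Finset.Icc 1 ⌊X⌋₊, (Finset.univ.filter fun i : S N =>
      (N : ℝ) ^ (m + 1) * P N i ^ (m ^ 2) ≤ w N i * X ^ (m + 1) ∧ bad N i).card : ℕ) : ℝ) ≤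
        C * C1 * X ^ ((m : ℝ) + 1 - c') := by
  have hmr : (1 : ℝ) ≤ m := by exact_mod_cast hm
  obtain ⟨θ, hθ⟩ : ∃ θ : ℝ, θ = 1 / (2 * (m : ℝ) ^ 2 + 3) := ⟨_, rfl⟩
  have hθ0 : 0 < θ := by rw [hθ]; positivity
  have hθ1 : θ ≤ 1 := by
    rw [hθ, div_le_one (by positivity)]
    nlinarith
  have hθe : θ * ((2 * m ^ 2 + 3 : ℕ) : ℝ) = 1 := by
    rw [hθ]
    push_cast
    field_simp
  obtain ⟨e1, CU, he1, hCU, hU⟩ := Pool.Agent.H27.L1.H68.GHK.universal_sum_w m hm (θ * c / 2)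
    (by positivity)
  refine ⟨min (θ * c / 2) 1, CU + 1, lt_min (by positivity) one_pos, by positivity, ?_⟩
  intro C1 hC1 S _ P w bad hF hZ hT X hX
  have hX0 : 0 < X := by linarith
  obtain ⟨Z, hZd⟩ : ∃ Z : ℝ, Z = X ^ θ := ⟨_, rfl⟩
  have hZ1 : 1 ≤ Z := by
    rw [hZd]
    exact Real.one_le_rpow hX hθ0.le
  have hZ0 : 0 < Z := by linarith
  have hZX : Z ≤ X := by
    rw [hZd]
    calc X ^ θ ≤ X ^ (1 : ℝ) := Real.rpow_le_rpow_of_exponent_le hX hθ1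
      _ = X := Real.rpow_one X
  have hann : ∀ N, 1 ≤ N → ∀ i : S N, 0 ≤ (if bad N i then ((N : ℝ) * P N i) ^ c else 0) := by
    intro N hN i
    have := (hF N hN i).1
    split_ifs
    · positivity
    · exact le_rfl
  have h5 := hU C1 hC1 1 le_rfl S P w (fun N i => if bad N i then ((N : ℝ) * P N i) ^ c else 0)
    (fun N hN i => ⟨(hF N hN i).1, (hF N hN i).2.1, (hF N hN i).2.2, hann N hN i⟩)
    (fun N hN Q hQ => one_lev (P N) (w N) (bad N) m N c C1 e1 Q hm hN hc hC1 he1 hQ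
      (fun i => (hF N hN i).1) (fun i => by linarith [(hF N hN i).2.1]) (hZ N hN Q hQ)) X hX
  have h6 := small_cnt m C1 Z X hC1 hZ1 hZX S P w (fun N hN i => ⟨(hF N hN i).1, (hF N hN i).2.1⟩)
    hT
  have hZc : 0 < Z ^ c := by positivity
  -- one member
  have hpt : ∀ N ∈ Finset.Icc 1 ⌊X⌋₊, ((Finset.univ.filter fun i : S N =>
      (N : ℝ) ^ (m + 1) * P N i ^ (m ^ 2) ≤ w N i * X ^ (m + 1) ∧ bad N i).card : ℝ) ≤
      (Z ^ c)⁻¹ * ∑ i ∈ Finset.univ.filter (fun i : S N => (N : ℝ) ^ (m + 1) * P N i ^ (m ^ 2) ≤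
        w N i * X ^ (m + 1)), (if bad N i then ((N : ℝ) * P N i) ^ c else 0) +
      ∑ i : S N, (if (N : ℝ) * P N i < Z then (1 : ℝ) else 0) := by
    intro N hN
    have hN1 := (Finset.mem_Icc.1 hN).1
    have hN1' : (1 : ℝ) ≤ N := by exact_mod_cast hN1
    rw [Finset.card_eq_sum_ones, Nat.cast_sum, Finset.sum_filter, Finset.sum_filter,
      Finset.mul_sum, ← Finset.sum_add_distrib]
    refine Finset.sum_le_sum fun i _ => ?_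
    have ha := hann N hN1 i
    have hsm : (0 : ℝ) ≤ (if (N : ℝ) * P N i < Z then (1 : ℝ) else 0) := by
      split_ifs
      · exact zero_le_one
      · exact le_rfl
    by_cases h7 : (N : ℝ) ^ (m + 1) * P N i ^ (m ^ 2) ≤ w N i * X ^ (m + 1) ∧ bad N i
    · rw [if_pos h7, if_pos h7.1, if_pos h7.2, Nat.cast_one]
      by_cases h8 : (N : ℝ) * P N i < Z
      · rw [if_pos h8]
        have := (hF N hN1 i).1
        have h9 : 0 ≤ (Z ^ c)⁻¹ * ((N : ℝ) * P N i) ^ c := by positivity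
        linarith
      · rw [if_neg h8, add_zero, ← div_eq_inv_mul, le_div_iff₀ hZc, one_mul]
        exact Real.rpow_le_rpow hZ0.le (not_lt.1 h8) hc.le
    · rw [if_neg h7]
      have h9 : 0 ≤ (Z ^ c)⁻¹ * (if (N : ℝ) ^ (m + 1) * P N i ^ (m ^ 2) ≤ w N i * X ^ (m + 1) then
          (if bad N i then ((N : ℝ) * P N i) ^ c else 0) else 0) := by
        refine mul_nonneg (inv_nonneg.2 hZc.le) ?_
        split_ifs <;> first | exact le_rfl | (have := (hF N hN1 i).1; positivity)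
      linarith
  have hexp : (m : ℝ) + 1 - θ * c / 2 ≤ (m : ℝ) + 1 - min (θ * c / 2) 1 := by
    have := min_le_left (θ * c / 2) 1
    linarith
  have hexp2 : (1 : ℝ) ≤ (m : ℝ) + 1 - min (θ * c / 2) 1 := by
    have := min_le_right (θ * c / 2) 1
    linarith
  have h7 : (Z ^ c)⁻¹ * (CU * C1 * X ^ ((m : ℝ) + 1 + θ * c / 2)) ≤
      CU * C1 * X ^ ((m : ℝ) + 1 - min (θ * c / 2) 1) := by
    have e : (Z ^ c)⁻¹ * (CU * C1 * X ^ ((m : ℝ) + 1 + θ * c / 2)) =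
        CU * C1 * X ^ ((m : ℝ) + 1 - θ * c / 2) := by
      rw [hZd, ← Real.rpow_mul hX0.le, ← Real.rpow_neg hX0.le]
      calc X ^ (-(θ * c)) * (CU * C1 * X ^ ((m : ℝ) + 1 + θ * c / 2)) =
          CU * C1 * (X ^ (-(θ * c)) * X ^ ((m : ℝ) + 1 + θ * c / 2)) := by ring
        _ = _ := by
            rw [← Real.rpow_add hX0]
            congr 2
            ring
    rw [e]
    exact mul_le_mul_of_nonneg_left (Real.rpow_le_rpow_of_exponent_le hX hexp) (by positivity)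
  have h8 : C1 * Z ^ (2 * m ^ 2 + 3) ≤ C1 * X ^ ((m : ℝ) + 1 - min (θ * c / 2) 1) := by
    refine mul_le_mul_of_nonneg_left ?_ hC1
    rw [hZd, ← Real.rpow_natCast, ← Real.rpow_mul hX0.le, hθe]
    exact Real.rpow_le_rpow_of_exponent_le hX hexp2
  rw [Nat.cast_sum]
  calc ∑ N ∈ Finset.Icc 1 ⌊X⌋₊, ((Finset.univ.filter fun i : S N =>
      (N : ℝ) ^ (m + 1) * P N i ^ (m ^ 2) ≤ w N i * X ^ (m + 1) ∧ bad N i).card : ℝ) ≤
      ∑ N ∈ Finset.Icc 1 ⌊X⌋₊, ((Z ^ c)⁻¹ * ∑ i ∈ Finset.univ.filter (fun i : S N =>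
        (N : ℝ) ^ (m + 1) * P N i ^ (m ^ 2) ≤
        w N i * X ^ (m + 1)), (if bad N i then ((N : ℝ) * P N i) ^ c else 0) +
      ∑ i : S N, (if (N : ℝ) * P N i < Z then (1 : ℝ) else 0)) := Finset.sum_le_sum hpt
    _ = (Z ^ c)⁻¹ * (∑ N ∈ Finset.Icc 1 ⌊X⌋₊, ∑ i ∈ Finset.univ.filter (fun i : S N =>
        (N : ℝ) ^ (m + 1) * P N i ^ (m ^ 2) ≤
        w N i * X ^ (m + 1)), (if bad N i then ((N : ℝ) * P N i) ^ c else 0)) +
      ∑ N ∈ Finset.Icc 1 ⌊X⌋₊, ∑ i : S N, (if (N : ℝ) * P N i < Z then (1 : ℝ) else 0) := by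
        rw [Finset.sum_add_distrib, Finset.mul_sum]
    _ ≤ (Z ^ c)⁻¹ * (CU * C1 * X ^ ((m : ℝ) + 1 + θ * c / 2)) + C1 * Z ^ (2 * m ^ 2 + 3) := by
        refine add_le_add (mul_le_mul_of_nonneg_left ?_ (inv_nonneg.2 hZc.le)) h6
        exact h5
    _ ≤ CU * C1 * X ^ ((m : ℝ) + 1 - min (θ * c / 2) 1) +
        C1 * X ^ ((m : ℝ) + 1 - min (θ * c / 2) 1) := add_le_add h7 h8
    _ = _ := by ring

end Pool.Agent.H31.ZF
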